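import Pool.Agent.R972.LSI.One

/-!
# The log-Sobolev constant is not stable under Gaussian tilts

For every `C` there is a compactly supported log-concave probability measure `π` on the line
(`ℝ¹ = Fin 1 → ℝ`) with `C_LSI(π γ_1) > C · C_LSI(π)`; moreover the constants `C_LSI(π)` may be
taken arbitrarily small while `C_LSI(π γ_1) ≥ 1/24`.
-/

set_option autoImplicit false

open MeasureTheory Pool.Agent.R972.LSI
open scoped ENNReal

namespace Pool.Agent.Results.MP_13a01f_pr.TiltLSI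

theorem result : ∀ C : ℝ, 0 < C → ∃ (n : ℕ) (π : Measure (Fin n → ℝ)) (h : ℝ), 1 ≤ n ∧ 0 < h ∧
    IsProbabilityMeasure π ∧ IsLogConcave π ∧ (∃ K, IsCompact K ∧ π Kᶜ = 0) ∧
    lsiConst π < ∞ ∧
    ENNReal.ofReal C * lsiConst π < lsiConst (gaussTilt h π) := by
  intro C hC
  obtain ⟨v, hv⟩ : ∃ v : ℝ, 2 ≤ v ∧ C * (76 / v) < 1 / 24 := by
    refine ⟨2 + 24 * 76 * C, by nlinarith, ?_⟩
    rw [← mul_div_assoc, div_lt_iff₀ (by positivity)]
    nlinarith
  refine ⟨1, pi1 v, 1, le_rfl, one_pos, inferInstance, pi1_lc v, ⟨K1 v, K1_compact v, pi1_supp v⟩,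
    (pi1_lsi hv.1).trans_lt ENNReal.ofReal_lt_top, ?_⟩
  calc ENNReal.ofReal C * lsiConst (pi1 v) ≤ ENNReal.ofReal C * ENNReal.ofReal (76 / v) := by
        gcongr
        exact pi1_lsi hv.1
    _ = ENNReal.ofReal (C * (76 / v)) := (ENNReal.ofReal_mul hC.le).symm
    _ < ENNReal.ofReal (1 / 24) := (ENNReal.ofReal_lt_ofReal_iff (by norm_num)).2 hv.2
    _ ≤ _ := pi1_tilt_lsi v

end Pool.Agent.Results.MP_13a01f_pr.TiltLSI
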